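import Pool.Agent.Helper843.CM.Main

set_option autoImplicit false
open MeasureTheory

namespace Pool.Agent.Results.MP_a34d76_pr.CubicBound

/-- For every `d ≥ 1`, every convex set `C ⊂ ℝ^d` of positive finite volume and every
`n ≥ 48 d³ + 168 d² + 84 d` there are `n` random vectors, each uniform on `C`, whose sum is almost
surely constant. -/
theorem result :
    ∀ (d : ℕ), 1 ≤ d → ∀ (C : Set (Fin d → ℝ)),
      Convex ℝ C → 0 < volume C → volume C < ⊤ →
      ∀ n : ℕ, 48 * d ^ 3 + 168 * d ^ 2 + 84 * d ≤ n →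
        ∃ P : Measure (Fin n → (Fin d → ℝ)),
          IsProbabilityMeasure P ∧
          (∀ i : Fin n,
            P.map (fun x : Fin n → (Fin d → ℝ) => x i)
              = (volume C)⁻¹ • volume.restrict C) ∧
          ∃ c : Fin d → ℝ, ∀ᵐ x ∂P, (∑ i, x i) = c := by
  intro d hd C hC h0 h1 n hn
  exact H843CM.main hd C hC h0 h1 n hn

end Pool.Agent.Results.MP_a34d76_pr.CubicBound
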